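import Mathlib
import Pool.Agent.N221.SEF

/-!
# A fixed-point free flow all of whose factors separating two given points have infinite entropy

The negative answer to Q1 of MP_54b048_an.
-/

universe u

namespace Pool.Agent.Results.MP_54b048_an.NoSmallEntropyFactor

/-- There are a fixed-point free flow on a compact metrizable space and two distinct points `w`,
`w'` such that the time-one map of every flow factor which separates `w` and `w'` has infinite
topological entropy. -/
theorem result : ∃ (X : Type) (_ : TopologicalSpace X) (_ : CompactSpace X)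
    (_ : TopologicalSpace.MetrizableSpace X) (φ : Flow ℝ X) (w w' : X),
    (∀ x : X, ∃ t : ℝ, φ t x ≠ x) ∧ w ≠ w' ∧
    ∀ (Y : Type u) [MetricSpace Y] [CompactSpace Y] (ψ : Flow ℝ Y) (π : X → Y),
      Continuous π → Function.Surjective π → (∀ (t : ℝ) (x : X), π (φ t x) = ψ t (π x)) →
      π w ≠ π w' → Dynamics.coverEntropy (ψ 1) (Set.univ : Set Y) = ⊤ := by
  refine ⟨Pool.Agent.N221.SEF.X, inferInstance, inferInstance, inferInstance,
    Pool.Agent.N221.SEF.φ,
    (Pool.Agent.N221.SEF.const 0 Pool.Agent.N221.SEF.zero_mem, 0),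
    (Pool.Agent.N221.SEF.const 1 Pool.Agent.N221.SEF.one_mem, 0),
    Pool.Agent.N221.SEF.fixfree, ?_, ?_⟩
  · intro h
    have h1 := congrArg (fun p => p.1.1 0) h
    have h2 : (0 : ℝ) = 1 := h1
    exact zero_ne_one h2
  · intro Y _ _ ψ π hπ _ heq hne
    exact Pool.Agent.N221.SEF.main ψ π hπ heq hne

end Pool.Agent.Results.MP_54b048_an.NoSmallEntropyFactor
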